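import Pool.Agent.Helper129.Kur.TreePart

/-!
# Kurosh's group is metrizably ended and has no finite Kurosh rank

Kurosh's group `Γ = ⟨a_n (n ≥ 0), b_n (n ≥ 1) | a_n b_n a_n⁻¹ b_n⁻¹ = a_{n-1}⟩` is countable and
torsion-free, has only countably many almost invariant sets (so its space of ends is metrizable)
and is not a free product of finitely many freely indecomposable groups.
-/

set_option autoImplicit false

namespace Pool.Agent.Results.MP_879d44_al.KuroshGroup

open Pool.Agent.Helper129.Kur

section defs

variable (G : Type) [Group G]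

/-- The Boolean algebra of the subsets `A` of `G` such that `A ∆ A g` is finite for every `g`. -/
def almostInvariantSets : BooleanSubalgebra (Set G) where
  carrier := {A | ∀ g : G, (symmDiff A ((fun x => x * g) '' A)).Finite}
  supClosed' := by
    intro A hA B hB g
    apply ((hA g).union (hB g)).subset
    intro x hx
    rw [Set.mem_symmDiff, mem_image_mul] at hx
    rw [Set.mem_union, Set.mem_symmDiff, Set.mem_symmDiff, mem_image_mul, mem_image_mul]
    change (x ∈ A ∪ B ∧ x * g⁻¹ ∉ A ∪ B ∨ x * g⁻¹ ∈ A ∪ B ∧ x ∉ A ∪ B) at hx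
    rw [Set.mem_union, Set.mem_union] at hx
    tauto
  infClosed' := by
    intro A hA B hB g
    apply ((hA g).union (hB g)).subset
    intro x hx
    rw [Set.mem_symmDiff, mem_image_mul] at hx
    rw [Set.mem_union, Set.mem_symmDiff, Set.mem_symmDiff, mem_image_mul, mem_image_mul]
    change (x ∈ A ∩ B ∧ x * g⁻¹ ∉ A ∩ B ∨ x * g⁻¹ ∈ A ∩ B ∧ x ∉ A ∩ B) at hx
    rw [Set.mem_inter_iff, Set.mem_inter_iff] at hx
    tauto
  compl_mem' := by
    intro A hA g
    apply (hA g).subset
    intro x hx
    rw [Set.mem_symmDiff, mem_image_mul] at hx ⊢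
    rw [Set.mem_compl_iff, Set.mem_compl_iff] at hx
    tauto
  bot_mem' := by
    intro g
    apply Set.finite_empty.subset
    intro x hx
    rw [Set.mem_symmDiff, mem_image_mul] at hx
    simp at hx

/-- The space of ends of `G`: the Stone space of the Boolean algebra of almost invariant sets modulo
finite sets, that is, the homomorphisms of Boolean algebras from the almost invariant sets to
`Bool` which vanish on the finite sets. -/
noncomputable def Ends : Type :=
  {χ : BoundedLatticeHom (almostInvariantSets G) Bool //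
    ∀ A : almostInvariantSets G, (A : Set G).Finite → χ A = false}

/-- The topology of pointwise convergence. -/
noncomputable instance : TopologicalSpace (Ends G) :=
  TopologicalSpace.induced (fun χ (A : almostInvariantSets G) => χ.1 A) inferInstance

/-- `G` is metrizably ended. -/
def MetrizablyEnded : Prop := TopologicalSpace.MetrizableSpace (Ends G)

/-- A nontrivial group which is not a free product of two nontrivial groups. -/
def FreelyIndecomposable : Prop :=
  Nontrivial G ∧ ¬ ∃ (A B : Type) (_ : Group A) (_ : Group B), Nontrivial A ∧ Nontrivial B ∧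
    Nonempty (G ≃* Monoid.Coprod A B)

/-- `G` is isomorphic to a free product of finitely many freely indecomposable groups. -/
def FiniteKuroshRank : Prop :=
  ∃ (n : ℕ) (H : Fin n → Type) (_ : ∀ i, Group (H i)),
    (∀ i, FreelyIndecomposable (H i)) ∧ Nonempty (G ≃* Monoid.CoprodI H)

end defs

theorem metrizablyEnded : MetrizablyEnded Kurosh := by
  have hc : Countable (almostInvariantSets Kurosh) := countable_ai
  let ev : Ends Kurosh → (almostInvariantSets Kurosh → Bool) := fun χ A => χ.1 A
  have hinj : Function.Injective ev := by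
    intro χ χ' h
    apply Subtype.ext
    apply DFunLike.ext
    intro A
    exact congrFun h A
  have hemb : Topology.IsEmbedding ev := ⟨⟨rfl⟩, hinj⟩
  have hm : TopologicalSpace.MetrizableSpace (almostInvariantSets Kurosh → Bool) :=
    TopologicalSpace.metrizableSpace_of_t3_secondCountable _
  exact hemb.metrizableSpace

theorem not_finiteKuroshRank : ¬ FiniteKuroshRank Kurosh := by
  classical
  rintro ⟨n, H, _, hH, ⟨e⟩⟩
  obtain ⟨f, hfa, hfb⟩ := exists_hom (K := Multiplicative (ℕ → ZMod 2)) 0 (fun _ => 1)
    (fun n => Multiplicative.ofAdd (Pi.single n 1)) (by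
      intro n _
      rw [one_mul, inv_one, mul_one, mul_inv_cancel])
  have hfa' : ∀ i, f (a i) = 1 := fun i => hfa i (Nat.zero_le i)
  let Φ : Kurosh → (Fin (n + 1) → ZMod 2) := fun g j => (f g).toAdd j
  have hΦmul : ∀ x y, Φ (x * y) = Φ x + Φ y := by
    intro x y
    funext j
    simp only [Φ, map_mul, toAdd_mul, Pi.add_apply]
  have hΦone : Φ 1 = 0 := by
    funext j
    simp only [Φ, map_one, toAdd_one, Pi.zero_apply]
  let ι : ∀ i, H i →* Kurosh := fun i => e.symm.toMonoidHom.comp Monoid.CoprodI.of
  have hι : ∀ i, Function.Injective (ι i) := by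
    intro i x y hxy
    exact Monoid.CoprodI.of_injective i (e.symm.injective hxy)
  -- each factor contributes at most one dimension
  have hfac : ∀ i, ∃ w : Fin (n + 1) → ZMod 2, ∀ h : H i, Φ (ι i h) ∈ Submodule.span (ZMod 2) {w} := by
    intro i
    let eq1 : H i ≃* (ι i).range := MonoidHom.ofInjective (hι i)
    by_cases hcyc : ∃ t : (ι i).range, ∀ g, ∃ n : ℤ, t ^ n = g
    · obtain ⟨t, ht⟩ := hcyc
      refine ⟨Φ t, fun h => ?_⟩
      obtain ⟨k, hk⟩ := ht (eq1 h)
      have h1 : (t : Kurosh) ^ k = ι i h := by
        have h0 := congrArg Subtype.val hk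
        rw [Subgroup.coe_zpow] at h0
        exact h0
      rw [← h1]
      let ψ : Kurosh →* Multiplicative (Fin (n + 1) → ZMod 2) :=
        { toFun := fun g => Multiplicative.ofAdd (Φ g)
          map_one' := by rw [hΦone]; rfl
          map_mul' := by intro x y; rw [hΦmul]; rfl }
      have h2 : Φ ((t : Kurosh) ^ k) = k • Φ t := by
        have h3 := map_zpow ψ (t : Kurosh) k
        exact congrArg Multiplicative.toAdd h3
      rw [h2]
      exact (Submodule.span (ZMod 2) {Φ t}).toAddSubgroup.zsmul_mem
        (Submodule.subset_span rfl) k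
    · refine ⟨0, fun h => ?_⟩
      have hns : ¬ Pool.Agent.H599R3.RH.Splits (ι i).range := by
        rintro ⟨A, B, iA, iB, hA, hB, ⟨e2⟩⟩
        exact (hH i).2 ⟨A, B, iA, iB, hA, hB, ⟨eq1.trans e2⟩⟩
      have h1 : Φ (ι i h) = 0 := by
        funext j
        exact phi_zero (ι i).range hns hcyc f hfa' hfb j ⟨ι i h, ⟨h, rfl⟩⟩
      rw [h1]
      exact Submodule.zero_mem _
  choose w hw using hfac
  have hall : ∀ g, Φ g ∈ Submodule.span (ZMod 2) (Set.range w) := by
    intro g
    have key : ∀ x : Monoid.CoprodI H, Φ (e.symm x) ∈ Submodule.span (ZMod 2) (Set.range w) := by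
      intro x
      induction x using Monoid.CoprodI.induction_on with
      | one => rw [map_one, hΦone]; exact Submodule.zero_mem _
      | of i m =>
        exact Submodule.span_mono (Set.singleton_subset_iff.2 (Set.mem_range_self i)) (hw i m)
      | mul x y hx hy =>
        rw [map_mul, hΦmul]
        exact Submodule.add_mem _ hx hy
    have := key (e g)
    rwa [e.symm_apply_apply] at this
  have htop : Submodule.span (ZMod 2) (Set.range w) = ⊤ := by
    rw [eq_top_iff, ← (Pi.basisFun (ZMod 2) (Fin (n + 1))).span_eq, Submodule.span_le]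
    rintro _ ⟨j, rfl⟩
    have h1 := hall (b j)
    have h2 : Φ (b j) = Pi.basisFun (ZMod 2) (Fin (n + 1)) j := by
      funext i
      simp only [Φ, hfb, toAdd_ofAdd, Pi.basisFun_apply, Pi.single_apply]
      by_cases h3 : i = j
      · subst h3; simp
      · rw [if_neg h3, if_neg (fun h4 => h3 (Fin.ext h4))]
    rw [h2] at h1
    exact h1
  have : Fact (Nat.Prime 2) := ⟨Nat.prime_two⟩
  have h1 : Module.finrank (ZMod 2) (Submodule.span (ZMod 2) (Set.range w)) ≤ n := by
    have := finrank_range_le_card (R := ZMod 2) w
    rwa [Fintype.card_fin] at this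
  rw [htop, finrank_top, Module.finrank_fin_fun] at h1
  omega

/-- Kurosh's group is countable, torsion-free and metrizably ended, and it has no finite Kurosh
rank. -/
theorem result : Countable Kurosh ∧ (∀ g : Kurosh, g ≠ 1 → ∀ n : ℕ, n ≠ 0 → g ^ n ≠ 1) ∧
    MetrizablyEnded Kurosh ∧ ¬ FiniteKuroshRank Kurosh :=
  ⟨inferInstance, torsionFree, metrizablyEnded, not_finiteKuroshRank⟩

end Pool.Agent.Results.MP_879d44_al.KuroshGroup
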